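import Pool.Agent.N1E.E3

set_option autoImplicit false

namespace Pool.Agent.N1E

open MeasureTheory Set

theorem qf_hasDeriv {c a b z1 z2 u : ℝ} (hc : 0 < c) (h : Dom c (a - u * z1) (b - u * z2)) :
    HasDerivAt (fun v : ℝ => qf (a - v * z1) (b - v * z2))
      (z1 * sf (a - u * z1) (b - u * z2) + z2 * rf (a - u * z1) (b - u * z2)) u := by
  obtain ⟨q1, -, q2⟩ := dom_q hc h
  have hq : 0 < qf (a - u * z1) (b - u * z2) := by linarith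
  have h1 : HasDerivAt (fun v : ℝ => 1 - (a - v * z1) ^ 2 - (b - v * z2) ^ 2)
      (2 * (a - u * z1) * z1 + 2 * (b - u * z2) * z2) u := by
    have ha : HasDerivAt (fun v : ℝ => a - v * z1) (-z1) u := by
      simpa using ((hasDerivAt_id u).mul_const z1).const_sub a
    have hb : HasDerivAt (fun v : ℝ => b - v * z2) (-z2) u := by
      simpa using ((hasDerivAt_id u).mul_const z2).const_sub b
    refine (((ha.pow 2).const_sub 1).sub (hb.pow 2)).congr_deriv ?_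
    push_cast
    ring
  have h2 : 1 - (a - u * z1) ^ 2 - (b - u * z2) ^ 2 ≠ 0 := by
    rw [← q2]
    positivity
  refine HasDerivAt.congr_deriv (f := fun v : ℝ => qf (a - v * z1) (b - v * z2)) (h1.sqrt h2) ?_
  have : √(1 - (a - u * z1) ^ 2 - (b - u * z2) ^ 2) = qf (a - u * z1) (b - u * z2) := rfl
  rw [this]
  unfold sf rf
  field_simp

/-- Mean value theorem. -/
theorem mvt {c : ℝ} (hc : 0 < c) {w : P6} (h : In4 c w) :
    ∃ u ∈ Icc (0:ℝ) 1, F6 w = -(w.1.2.2 * dS w u + w.2.2.2 * dR w u) := by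
  have hd : ∀ u ∈ Icc (0:ℝ) 1, HasDerivAt (fun v : ℝ => ph w.1.1 w.2.1 (w.1.2.1 - v * w.1.2.2)
      (w.2.2.1 - v * w.2.2.2)) (w.1.2.2 * dS w u + w.2.2.2 * dR w u) u := by
    intro u hu
    have h1 := qf_hasDeriv hc (seg1 h hu)
    have h2 : HasDerivAt (fun v : ℝ => qf (w.1.2.1 - v * w.1.2.2 - w.1.1)
        (w.2.2.1 - v * w.2.2.2 - w.2.1)) (w.1.2.2 * sf (w.1.2.1 - u * w.1.2.2 - w.1.1)
        (w.2.2.1 - u * w.2.2.2 - w.2.1) + w.2.2.2 * rf (w.1.2.1 - u * w.1.2.2 - w.1.1)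
        (w.2.2.1 - u * w.2.2.2 - w.2.1)) u := by
      have h3 : Dom c (w.1.2.1 - w.1.1 - u * w.1.2.2) (w.2.2.1 - w.2.1 - u * w.2.2.2) := by
        have := seg2 h hu
        convert this using 1 <;> ring
      have h4 := qf_hasDeriv hc h3
      have e1 : ∀ v : ℝ, w.1.2.1 - w.1.1 - v * w.1.2.2 = w.1.2.1 - v * w.1.2.2 - w.1.1 := by
        intro v
        ring
      have e2 : ∀ v : ℝ, w.2.2.1 - w.2.1 - v * w.2.2.2 = w.2.2.1 - v * w.2.2.2 - w.2.1 := by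
        intro v
        ring
      simp only [e1, e2] at h4
      exact h4
    have h5 := h1.sub h2
    unfold dS dR
    refine HasDerivAt.congr_deriv (f := fun v : ℝ => ph w.1.1 w.2.1 (w.1.2.1 - v * w.1.2.2)
      (w.2.2.1 - v * w.2.2.2)) h5 ?_
    ring
  have hcont : ContinuousOn (fun v : ℝ => ph w.1.1 w.2.1 (w.1.2.1 - v * w.1.2.2)
      (w.2.2.1 - v * w.2.2.2)) (Icc 0 1) := fun u hu => (hd u hu).continuousAt.continuousWithinAt
  obtain ⟨u, hu, he⟩ := exists_hasDerivAt_eq_slope _ _ zero_lt_one hcont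
    (fun u hu => hd u (Ioo_subset_Icc_self hu))
  refine ⟨u, Ioo_subset_Icc_self hu, ?_⟩
  rw [he]
  unfold F6
  simp only [one_mul, zero_mul, sub_zero, div_one]
  ring

theorem dS_NN {c : ℝ} (hc : 0 < c) {w : P6} (h : In4 c w) {u : ℝ} (hu : u ∈ Icc (0:ℝ) 1) :
    ∃ l : ℝ, c ^ 5 / 96 ≤ l ∧ l ≤ 81 / c ^ 5 ∧ dS w u = l * NNu w u :=
  sf_NN hc (seg1 h hu) (seg2 h hu)

theorem dS_le {c : ℝ} (hc : 0 < c) (hc1 : c ≤ 1) {w : P6} (h : In4 c w) {u : ℝ}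
    (hu : u ∈ Icc (0:ℝ) 1) : |dS w u| ≤ 36 / c ^ 3 * (|w.1.1| + |w.2.1|) := by
  have := sf_le hc hc1 (seg1 h hu) (seg2 h hu)
  simpa [dS] using this

theorem dR_le {c : ℝ} (hc : 0 < c) (hc1 : c ≤ 1) {w : P6} (h : In4 c w) {u : ℝ}
    (hu : u ∈ Icc (0:ℝ) 1) : |dR w u| ≤ 36 / c ^ 3 * (|w.1.1| + |w.2.1|) := by
  have := rf_le hc hc1 (seg1 h hu) (seg2 h hu)
  simpa [dR] using this

/-- lower bound if `dR` dominates -/
theorem low_R {c : ℝ} (hc : 0 < c) {w : P6} (h : In4 c w) {lR m : ℝ}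
    (hR : ∀ u ∈ Icc (0:ℝ) 1, lR ≤ |dR w u|) (hN : ∀ u ∈ Icc (0:ℝ) 1, |NNu w u| ≤ m) :
    lR * |w.2.2.2| - 81 / c ^ 5 * m * |w.1.2.2| ≤ |F6 w| := by
  obtain ⟨u, hu, he⟩ := mvt hc h
  obtain ⟨l, l1, l2, l3⟩ := dS_NN hc h hu
  have hl : 0 ≤ l := le_trans (by positivity) l1
  have e1 : |dS w u| ≤ 81 / c ^ 5 * m := by
    rw [l3, abs_mul, abs_of_nonneg hl]
    exact mul_le_mul l2 (hN u hu) (abs_nonneg _) (by positivity)
  rw [he, abs_neg, add_comm]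
  refine le_trans ?_ (abs_sub_abs_le_abs_add _ _)
  rw [abs_mul, abs_mul]
  have := hR u hu
  have h1 := abs_nonneg w.1.2.2
  have h2 := abs_nonneg w.2.2.2
  nlinarith

/-- lower bound if `dS` dominates, in terms of `NN` -/
theorem low_S {c : ℝ} (hc : 0 < c) (hc1 : c ≤ 1) {w : P6} (h : In4 c w) {m : ℝ} (hm : 0 ≤ m)
    (hN : ∀ u ∈ Icc (0:ℝ) 1, m ≤ |NNu w u|) :
    c ^ 5 / 96 * m * |w.1.2.2| - 36 / c ^ 3 * (|w.1.1| + |w.2.1|) * |w.2.2.2| ≤ |F6 w| := by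
  obtain ⟨u, hu, he⟩ := mvt hc h
  obtain ⟨l, l1, l2, l3⟩ := dS_NN hc h hu
  have hl : 0 ≤ l := le_trans (by positivity) l1
  have e1 : c ^ 5 / 96 * m ≤ |dS w u| := by
    rw [l3, abs_mul, abs_of_nonneg hl]
    exact mul_le_mul l1 (hN u hu) hm hl
  rw [he, abs_neg]
  refine le_trans ?_ (abs_sub_abs_le_abs_add _ _)
  rw [abs_mul, abs_mul]
  have := dR_le hc hc1 h hu
  have h1 := abs_nonneg w.1.2.2
  have h2 := abs_nonneg w.2.2.2
  nlinarith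

/-- lower bounds if both are controlled -/
theorem low_both {c : ℝ} (hc : 0 < c) {w : P6} (h : In4 c w) {lS mS lR mR : ℝ}
    (hS : ∀ u ∈ Icc (0:ℝ) 1, lS ≤ |dS w u|) (hS' : ∀ u ∈ Icc (0:ℝ) 1, |dS w u| ≤ mS)
    (hR : ∀ u ∈ Icc (0:ℝ) 1, lR ≤ |dR w u|) (hR' : ∀ u ∈ Icc (0:ℝ) 1, |dR w u| ≤ mR) :
    lS * |w.1.2.2| - mR * |w.2.2.2| ≤ |F6 w| ∧ lR * |w.2.2.2| - mS * |w.1.2.2| ≤ |F6 w| := by
  obtain ⟨u, hu, he⟩ := mvt hc h
  have h1 := abs_nonneg w.1.2.2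
  have h2 := abs_nonneg w.2.2.2
  have e1 := hS u hu
  have e2 := hS' u hu
  have e3 := hR u hu
  have e4 := hR' u hu
  rw [he, abs_neg]
  constructor
  · refine le_trans ?_ (abs_sub_abs_le_abs_add _ _)
    rw [abs_mul, abs_mul]
    nlinarith
  · rw [add_comm]
    refine le_trans ?_ (abs_sub_abs_le_abs_add _ _)
    rw [abs_mul, abs_mul]
    nlinarith

end Pool.Agent.N1E
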