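import Pool.Agent.N1E.Defs

set_option autoImplicit false

namespace Pool.Agent.N1E

open MeasureTheory Set
open scoped ENNReal

theorem prod_le {α β : Type*} [MeasurableSpace α] [MeasurableSpace β] (μ : Measure α)
    (ν : Measure β) [SFinite μ] [SFinite ν] {S : Set (α × β)} (hS : MeasurableSet S) {I : Set α}
    {M : ℝ≥0∞} (hI : ∀ p ∈ S, p.1 ∈ I) (hM : ∀ x, ν (Prod.mk x ⁻¹' S) ≤ M) :
    μ.prod ν S ≤ M * μ I := by
  rw [Measure.prod_apply hS]
  refine le_trans (lintegral_mono fun x => ?_) (lintegral_indicator_const_le I M)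
  by_cases hx : x ∈ I
  · rw [indicator_of_mem hx]
    exact hM x
  · rw [indicator_of_notMem hx]
    have : Prod.mk x ⁻¹' S = ∅ := by
      ext y
      simp only [mem_preimage, mem_empty_iff_false, iff_false]
      intro hy
      exact hx (hI _ hy)
    rw [this, measure_empty]

theorem prod_le_symm {α β : Type*} [MeasurableSpace α] [MeasurableSpace β] (μ : Measure α)
    (ν : Measure β) [SFinite μ] [SFinite ν] {S : Set (α × β)} (hS : MeasurableSet S) {I : Set β}
    {M : ℝ≥0∞} (hI : ∀ p ∈ S, p.2 ∈ I) (hM : ∀ y, μ ((fun x => (x, y)) ⁻¹' S) ≤ M) :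
    μ.prod ν S ≤ M * ν I := by
  rw [Measure.prod_apply_symm hS]
  refine le_trans (lintegral_mono fun y => ?_) (lintegral_indicator_const_le I M)
  by_cases hy : y ∈ I
  · rw [indicator_of_mem hy]
    exact hM y
  · rw [indicator_of_notMem hy]
    have : (fun x => (x, y)) ⁻¹' S = ∅ := by
      ext x
      simp only [mem_preimage, mem_empty_iff_false, iff_false]
      intro hx
      exact hy (hI _ hx)
    rw [this, measure_empty]

/-- Volume of a region whose sections in the `a`-direction have diameter at most `k`. -/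
theorem vol_slice {I1 I3 J1 J2 J3 : Set ℝ} {k : ℝ} (hk : 0 ≤ k) (R : Set P6)
    (hR : MeasurableSet R)
    (h : ∀ w ∈ R, w.1.1 ∈ I1 ∧ w.1.2.2 ∈ I3 ∧ w.2.1 ∈ J1 ∧ w.2.2.1 ∈ J2 ∧ w.2.2.2 ∈ J3)
    (hs : ∀ y1 a a' z1 : ℝ, ∀ v : ℝ × ℝ × ℝ, ((y1, a, z1), v) ∈ R → ((y1, a', z1), v) ∈ R →
      |a - a'| ≤ k) :
    volume R ≤ ENNReal.ofReal k * volume I3 * volume I1 *
      (volume J3 * volume J2 * volume J1) := by
  have hJ : volume (J1 ×ˢ (J2 ×ˢ J3)) ≤ volume J3 * volume J2 * volume J1 := by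
    rw [Measure.volume_eq_prod, Measure.prod_prod, Measure.volume_eq_prod, Measure.prod_prod]
    rw [mul_comm, mul_comm (volume J2)]
  refine le_trans ?_ (mul_le_mul_right hJ _)
  rw [Measure.volume_eq_prod]
  refine prod_le_symm _ _ hR (fun p hp => ?_) (fun v => ?_)
  · exact ⟨(h p hp).2.2.1, (h p hp).2.2.2.1, (h p hp).2.2.2.2⟩
  have hS : MeasurableSet ((fun u : ℝ × ℝ × ℝ => (u, v)) ⁻¹' R) :=
    (measurable_id.prodMk measurable_const) hR
  rw [Measure.volume_eq_prod]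
  refine prod_le _ _ hS (fun p hp => (h _ hp).1) (fun y1 => ?_)
  have hS2 : MeasurableSet (Prod.mk y1 ⁻¹' ((fun u : ℝ × ℝ × ℝ => (u, v)) ⁻¹' R)) :=
    measurable_prodMk_left hS
  rw [Measure.volume_eq_prod]
  refine prod_le_symm _ _ hS2 (fun p hp => (h _ hp).2.1) (fun z1 => ?_)
  refine (Real.volume_le_diam _).trans (Metric.ediam_le fun a ha a' ha' => ?_)
  rw [edist_dist, Real.dist_eq]
  exact ENNReal.ofReal_le_ofReal (hs y1 a a' z1 v ha ha')

end Pool.Agent.N1E
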