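import Mathlib

/-!
MP_6cbfb8_an, N1 (product densities), block E: absolute estimates.  Definitions.
-/

set_option autoImplicit false

namespace Pool.Agent.N1E

open MeasureTheory Set
open scoped ENNReal

/-- the height function -/
noncomputable def qf (a b : ℝ) : ℝ := √(1 - a ^ 2 - b ^ 2)

/-- minus the derivative of `qf` in `a` -/
noncomputable def sf (a b : ℝ) : ℝ := a / qf a b

/-- minus the derivative of `qf` in `b` -/
noncomputable def rf (a b : ℝ) : ℝ := b / qf a b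

/-- the difference with the outer increment `(y1, y2)` -/
noncomputable def ph (y1 y2 a b : ℝ) : ℝ := qf a b - qf (a - y1) (b - y2)

/-- the points of the four-linear form: `((y1, a, z1), (y2, b, z2))` -/
abbrev P6 : Type := (ℝ × ℝ × ℝ) × (ℝ × ℝ × ℝ)

/-- the four term difference -/
noncomputable def F6 (w : P6) : ℝ :=
  ph w.1.1 w.2.1 w.1.2.1 w.2.2.1 - ph w.1.1 w.2.1 (w.1.2.1 - w.1.2.2) (w.2.2.1 - w.2.2.2)

/-- the separated function whose zeros are the zeros of `∂_a ph` -/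
noncomputable def om (y1 a : ℝ) : ℝ := (a / (a - y1)) ^ 2

/-- see `om` -/
noncomputable def sg (y2 b : ℝ) : ℝ := (1 - b ^ 2) / (1 - (b - y2) ^ 2)

/-- see `om` -/
noncomputable def NN (y1 y2 a b : ℝ) : ℝ := om y1 a - sg y2 b

/-- the part of the disc on which everything takes place -/
def Dom (c a b : ℝ) : Prop := c / 2 ≤ a ∧ c / 2 ≤ b ∧ a ^ 2 + b ^ 2 ≤ 1 - c ^ 2 / 8

/-- all four points of the rectangle -/
structure In4 (c : ℝ) (w : P6) : Prop where
  p1 : Dom c w.1.2.1 w.2.2.1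
  p2 : Dom c (w.1.2.1 - w.1.1) (w.2.2.1 - w.2.1)
  p3 : Dom c (w.1.2.1 - w.1.2.2) (w.2.2.1 - w.2.2.2)
  p4 : Dom c (w.1.2.1 - w.1.2.2 - w.1.1) (w.2.2.1 - w.2.2.2 - w.2.1)

/-- the value of `NN` at the point `x - u z` of the segment -/
noncomputable def NNu (w : P6) (u : ℝ) : ℝ :=
  NN w.1.1 w.2.1 (w.1.2.1 - u * w.1.2.2) (w.2.2.1 - u * w.2.2.2)

/-- `-∂_a ph` at the point `x - u z` of the segment -/
noncomputable def dS (w : P6) (u : ℝ) : ℝ :=
  sf (w.1.2.1 - u * w.1.2.2) (w.2.2.1 - u * w.2.2.2) -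
    sf (w.1.2.1 - u * w.1.2.2 - w.1.1) (w.2.2.1 - u * w.2.2.2 - w.2.1)

/-- `-∂_b ph` at the point `x - u z` of the segment -/
noncomputable def dR (w : P6) (u : ℝ) : ℝ :=
  rf (w.1.2.1 - u * w.1.2.2) (w.2.2.1 - u * w.2.2.2) -
    rf (w.1.2.1 - u * w.1.2.2 - w.1.1) (w.2.2.1 - u * w.2.2.2 - w.2.1)

end Pool.Agent.N1E
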