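import Pool.Agent.N1E.Defs

set_option autoImplicit false

namespace Pool.Agent.N1E

open MeasureTheory Set

theorem dom_ab {c a b : ℝ} (hc : 0 < c) (h : Dom c a b) : c / 2 ≤ a ∧ a ≤ 1 ∧ c / 2 ≤ b ∧ b ≤ 1 ∧
    c ^ 2 / 4 ≤ 1 - a ^ 2 ∧ c ^ 2 / 4 ≤ 1 - b ^ 2 ∧ 1 - a ^ 2 ≤ 1 ∧ 1 - b ^ 2 ≤ 1 := by
  obtain ⟨h1, h2, h3⟩ := h
  have h4 : c ^ 2 / 4 ≤ a ^ 2 := by nlinarith
  have h5 : c ^ 2 / 4 ≤ b ^ 2 := by nlinarith
  refine ⟨h1, ?_, h2, ?_, by nlinarith, by nlinarith, by nlinarith, by nlinarith⟩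
  · nlinarith
  · nlinarith

theorem dom_q {c a b : ℝ} (hc : 0 < c) (h : Dom c a b) : c / 3 ≤ qf a b ∧ qf a b ≤ 1 ∧
    qf a b ^ 2 = 1 - a ^ 2 - b ^ 2 := by
  have h3 := h.2.2
  unfold qf
  refine ⟨?_, ?_, Real.sq_sqrt (by nlinarith)⟩
  · refine Real.le_sqrt_of_sq_le ?_
    nlinarith
  · rw [Real.sqrt_le_one]
    nlinarith [sq_nonneg a, sq_nonneg b]

/-- the region is convex -/
theorem dom_seg {c a b a' b' u : ℝ} (h : Dom c a b) (h' : Dom c a' b') (hu : u ∈ Icc (0:ℝ) 1) :
    Dom c (a + u * (a' - a)) (b + u * (b' - b)) := by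
  obtain ⟨h1, h2, h3⟩ := h
  obtain ⟨h1', h2', h3'⟩ := h'
  obtain ⟨u0, u1⟩ := hu
  refine ⟨by nlinarith, by nlinarith, ?_⟩
  have e : (a + u * (a' - a)) ^ 2 + (b + u * (b' - b)) ^ 2 =
      (1 - u) * (a ^ 2 + b ^ 2) + u * (a' ^ 2 + b' ^ 2) -
        u * (1 - u) * ((a' - a) ^ 2 + (b' - b) ^ 2) := by ring
  rw [e]
  have h4 : 0 ≤ u * (1 - u) * ((a' - a) ^ 2 + (b' - b) ^ 2) := by
    have : 0 ≤ 1 - u := by linarith
    positivity
  nlinarith

/-- exact formula for the difference of `sf` -/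
theorem sf_sub {c a b a' b' : ℝ} (hc : 0 < c) (h : Dom c a b) (h' : Dom c a' b') :
    sf a b - sf a' b' = ((a - a') * qf a' b' + a' * (((a - a') * (a + a') +
      (b - b') * (b + b')) / (qf a b + qf a' b'))) / (qf a b * qf a' b') := by
  obtain ⟨q1, -, q2⟩ := dom_q hc h
  obtain ⟨q1', -, q2'⟩ := dom_q hc h'
  have hq : 0 < qf a b := by linarith
  have hq' : 0 < qf a' b' := by linarith
  unfold sf
  have e : (a - a') * (a + a') + (b - b') * (b + b') =
      (qf a' b' - qf a b) * (qf a b + qf a' b') := by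
    have : (qf a' b' - qf a b) * (qf a b + qf a' b') = qf a' b' ^ 2 - qf a b ^ 2 := by ring
    rw [this, q2, q2']
    ring
  rw [e, mul_div_assoc, div_self (by positivity)]
  field_simp
  ring

/-- the same for `rf` -/
theorem rf_sub {c a b a' b' : ℝ} (hc : 0 < c) (h : Dom c a b) (h' : Dom c a' b') :
    rf a b - rf a' b' = ((b - b') * qf a' b' + b' * (((a - a') * (a + a') +
      (b - b') * (b + b')) / (qf a b + qf a' b'))) / (qf a b * qf a' b') := by
  obtain ⟨q1, -, q2⟩ := dom_q hc h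
  obtain ⟨q1', -, q2'⟩ := dom_q hc h'
  have hq : 0 < qf a b := by linarith
  have hq' : 0 < qf a' b' := by linarith
  unfold rf
  have e : (a - a') * (a + a') + (b - b') * (b + b') =
      (qf a' b' - qf a b) * (qf a b + qf a' b') := by
    have : (qf a' b' - qf a b) * (qf a b + qf a' b') = qf a' b' ^ 2 - qf a b ^ 2 := by ring
    rw [this, q2, q2']
    ring
  rw [e, mul_div_assoc, div_self (by positivity)]
  field_simp
  ring

theorem qf_comm (a b : ℝ) : qf a b = qf b a := by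
  unfold qf
  congr 1
  ring

theorem rf_eq (a b : ℝ) : rf a b = sf b a := by
  unfold rf sf
  rw [qf_comm]

theorem dom_swap {c a b : ℝ} (h : Dom c a b) : Dom c b a :=
  ⟨h.2.1, h.1, by linarith [h.2.2]⟩

/-- upper bound for the difference of `sf` -/
theorem sf_le {c a b a' b' : ℝ} (hc : 0 < c) (hc1 : c ≤ 1) (h : Dom c a b) (h' : Dom c a' b') :
    |sf a b - sf a' b'| ≤ 36 / c ^ 3 * (|a - a'| + |b - b'|) := by
  obtain ⟨q1, q3, -⟩ := dom_q hc h
  obtain ⟨q1', q3', -⟩ := dom_q hc h'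
  obtain ⟨a1, a2, b1, b2, -, -, -, -⟩ := dom_ab hc h
  obtain ⟨a1', a2', b1', b2', -, -, -, -⟩ := dom_ab hc h'
  have hq : 0 < qf a b := by linarith
  have hq' : 0 < qf a' b' := by linarith
  rw [sf_sub hc h h', abs_div, abs_of_pos (mul_pos hq hq')]
  have hx := abs_nonneg (a - a')
  have hy := abs_nonneg (b - b')
  have e1 : |(a - a') * qf a' b'| ≤ |a - a'| := by
    rw [abs_mul, abs_of_pos hq']
    exact mul_le_of_le_one_right hx q3'
  have e2 : |(a - a') * (a + a') + (b - b') * (b + b')| ≤ 2 * (|a - a'| + |b - b'|) := by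
    refine (abs_add_le _ _).trans ?_
    rw [abs_mul, abs_mul, abs_of_nonneg (show 0 ≤ a + a' by linarith),
      abs_of_nonneg (show 0 ≤ b + b' by linarith)]
    nlinarith
  have e3 : |a' * (((a - a') * (a + a') + (b - b') * (b + b')) / (qf a b + qf a' b'))| ≤
      3 / c * (|a - a'| + |b - b'|) := by
    rw [abs_mul, abs_div, abs_of_pos (add_pos hq hq'), abs_of_pos (show 0 < a' by linarith)]
    have e4 : |(a - a') * (a + a') + (b - b') * (b + b')| / (qf a b + qf a' b') ≤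
        2 * (|a - a'| + |b - b'|) / (2 * c / 3) := by
      refine div_le_div₀ (by positivity) e2 (by positivity) (by linarith)
    calc a' * (|(a - a') * (a + a') + (b - b') * (b + b')| / (qf a b + qf a' b')) ≤
        1 * (2 * (|a - a'| + |b - b'|) / (2 * c / 3)) := by
          refine mul_le_mul a2' e4 (by positivity) zero_le_one
      _ = 3 / c * (|a - a'| + |b - b'|) := by
          field_simp
  have e5 : |(a - a') * qf a' b' + a' * (((a - a') * (a + a') +
      (b - b') * (b + b')) / (qf a b + qf a' b'))| ≤ 4 / c * (|a - a'| + |b - b'|) := by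
    refine (abs_add_le _ _).trans ?_
    have e6 : |a - a'| ≤ 1 / c * (|a - a'| + |b - b'|) := by
      have : (1:ℝ) ≤ 1 / c := by
        rw [le_div_iff₀ hc]
        linarith
      nlinarith
    calc _ ≤ 1 / c * (|a - a'| + |b - b'|) + 3 / c * (|a - a'| + |b - b'|) := by linarith
      _ = _ := by ring
  have e7 : c ^ 2 / 9 ≤ qf a b * qf a' b' := by nlinarith
  calc _ ≤ 4 / c * (|a - a'| + |b - b'|) / (c ^ 2 / 9) := by
        refine div_le_div₀ (by positivity) e5 (by positivity) e7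
    _ = _ := by
        field_simp
        ring

theorem rf_le {c a b a' b' : ℝ} (hc : 0 < c) (hc1 : c ≤ 1) (h : Dom c a b) (h' : Dom c a' b') :
    |rf a b - rf a' b'| ≤ 36 / c ^ 3 * (|a - a'| + |b - b'|) := by
  rw [rf_eq, rf_eq, add_comm |a - a'|]
  exact sf_le hc hc1 (dom_swap h) (dom_swap h')

/-- lower bound for the difference of `sf`, direction `a` -/
theorem sf_ge {c a b a' b' : ℝ} (hc : 0 < c) (h : Dom c a b) (h' : Dom c a' b') :
    |a - a'| - 27 / c ^ 3 * |b - b'| ≤ |sf a b - sf a' b'| := by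
  obtain ⟨q1, q3, -⟩ := dom_q hc h
  obtain ⟨q1', q3', -⟩ := dom_q hc h'
  obtain ⟨a1, a2, b1, b2, -, -, -, -⟩ := dom_ab hc h
  obtain ⟨a1', a2', b1', b2', -, -, -, -⟩ := dom_ab hc h'
  have hq : 0 < qf a b := by linarith
  have hq' : 0 < qf a' b' := by linarith
  have hx := abs_nonneg (a - a')
  have hy := abs_nonneg (b - b')
  have e0 : sf a b - sf a' b' = (a - a') * ((qf a' b' + a' * (a + a') / (qf a b + qf a' b')) /
      (qf a b * qf a' b')) + (b - b') * (a' * (b + b') / ((qf a b + qf a' b') *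
      (qf a b * qf a' b'))) := by
    rw [sf_sub hc h h']
    field_simp
    ring
  have e1 : 1 ≤ (qf a' b' + a' * (a + a') / (qf a b + qf a' b')) / (qf a b * qf a' b') := by
    rw [le_div_iff₀ (by positivity), one_mul]
    have : 0 ≤ a' * (a + a') / (qf a b + qf a' b') := by
      have : 0 ≤ a' * (a + a') := by nlinarith
      positivity
    nlinarith
  have e2 : a' * (b + b') / ((qf a b + qf a' b') * (qf a b * qf a' b')) ≤ 27 / c ^ 3 := by
    have e3 : a' * (b + b') ≤ 2 := by nlinarith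
    have e4 : 2 * c / 3 * (c ^ 2 / 9) ≤ (qf a b + qf a' b') * (qf a b * qf a' b') := by
      refine mul_le_mul (by linarith) (by nlinarith) (by positivity) (by positivity)
    calc _ ≤ 2 / (2 * c / 3 * (c ^ 2 / 9)) := div_le_div₀ (by norm_num) e3 (by positivity) e4
      _ = _ := by
          field_simp
          ring
  have e2' : 0 ≤ a' * (b + b') / ((qf a b + qf a' b') * (qf a b * qf a' b')) := by
    have : 0 ≤ a' * (b + b') := by nlinarith
    positivity
  rw [e0]
  refine le_trans ?_ (abs_sub_abs_le_abs_add _ _)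
  rw [abs_mul, abs_mul, abs_of_nonneg e2', abs_of_nonneg (zero_le_one.trans e1)]
  nlinarith

/-- lower bound for the difference of `rf`, direction `a` -/
theorem rf_ge {c a b a' b' : ℝ} (hc : 0 < c) (hc1 : c ≤ 1) (h : Dom c a b) (h' : Dom c a' b') :
    c ^ 2 / 4 * |a - a'| - 30 / c ^ 3 * |b - b'| ≤ |rf a b - rf a' b'| := by
  obtain ⟨q1, q3, -⟩ := dom_q hc h
  obtain ⟨q1', q3', -⟩ := dom_q hc h'
  obtain ⟨a1, a2, b1, b2, -, -, -, -⟩ := dom_ab hc h
  obtain ⟨a1', a2', b1', b2', -, -, -, -⟩ := dom_ab hc h'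
  have hq : 0 < qf a b := by linarith
  have hq' : 0 < qf a' b' := by linarith
  have hx := abs_nonneg (a - a')
  have hy := abs_nonneg (b - b')
  have e0 : rf a b - rf a' b' = (a - a') * (b' * (a + a') / ((qf a b + qf a' b') *
      (qf a b * qf a' b'))) + (b - b') * (1 / qf a b + b' * (b + b') / ((qf a b + qf a' b') *
      (qf a b * qf a' b'))) := by
    rw [rf_sub hc h h']
    field_simp
    ring
  have e1 : c ^ 2 / 4 ≤ b' * (a + a') / ((qf a b + qf a' b') * (qf a b * qf a' b')) := by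
    have e3 : c ^ 2 / 2 ≤ b' * (a + a') := by nlinarith
    have e5 : qf a b * qf a' b' ≤ 1 := by nlinarith
    have e4 : (qf a b + qf a' b') * (qf a b * qf a' b') ≤ 2 := by nlinarith [mul_pos hq hq']
    calc c ^ 2 / 4 = c ^ 2 / 2 / 2 := by ring
      _ ≤ _ := div_le_div₀ (by nlinarith) e3 (by positivity) e4
  have e2 : b' * (b + b') / ((qf a b + qf a' b') * (qf a b * qf a' b')) ≤ 27 / c ^ 3 := by
    have e3 : b' * (b + b') ≤ 2 := by nlinarith
    have e4 : 2 * c / 3 * (c ^ 2 / 9) ≤ (qf a b + qf a' b') * (qf a b * qf a' b') := by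
      refine mul_le_mul (by linarith) (by nlinarith) (by positivity) (by positivity)
    calc _ ≤ 2 / (2 * c / 3 * (c ^ 2 / 9)) := div_le_div₀ (by norm_num) e3 (by positivity) e4
      _ = _ := by
          field_simp
          ring
  have e2' : 0 ≤ b' * (b + b') / ((qf a b + qf a' b') * (qf a b * qf a' b')) := by
    have : 0 ≤ b' * (b + b') := by nlinarith
    positivity
  have e6 : 1 / qf a b ≤ 3 / c ^ 3 := by
    rw [div_le_div_iff₀ hq (by positivity)]
    have : c ^ 3 ≤ c := by nlinarith [mul_pos hc hc]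
    nlinarith
  have e7 : 0 ≤ 1 / qf a b + b' * (b + b') / ((qf a b + qf a' b') * (qf a b * qf a' b')) := by
    positivity
  have e8 : 1 / qf a b + b' * (b + b') / ((qf a b + qf a' b') * (qf a b * qf a' b')) ≤
      30 / c ^ 3 := by
    calc _ ≤ 3 / c ^ 3 + 27 / c ^ 3 := add_le_add e6 e2
      _ = _ := by ring
  rw [e0]
  refine le_trans ?_ (abs_sub_abs_le_abs_add _ _)
  rw [abs_mul, abs_mul, abs_of_nonneg e7, abs_of_nonneg ((by positivity : (0:ℝ) ≤ c ^ 2 / 4).trans e1)]
  nlinarith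

end Pool.Agent.N1E
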